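import Mathlib
import Pool.Agent.H13R2.Kep.Geom

/-!
MP_4e5648_mp, Q2: a circle and a non-circular ellipse in space with a common focus:
the squared distance has at most ten stationary points.
-/

namespace Pool.Agent.Results.MP_4e5648_mp.CircleEllipse

open Real

/-- Euclidean three-space. -/
abbrev E3 := EuclideanSpace ℝ (Fin 3)

/-- A nondegenerate ellipse in space: centre `center`, orthonormal axis directions `major` and
`minor`, semi-axes `0 < b ≤ a` (a circle when `a = b`). -/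
structure Ellipse where
  center : E3
  major : E3
  minor : E3
  a : ℝ
  b : ℝ
  norm_major : ‖major‖ = 1
  norm_minor : ‖minor‖ = 1
  orthogonal : inner ℝ major minor = (0 : ℝ)
  b_pos : 0 < b
  b_le_a : b ≤ a

/-- The standard (regular) parametrisation of the ellipse. -/
noncomputable def Ellipse.param (E : Ellipse) (t : ℝ) : E3 :=
  E.center + (E.a * cos t) • E.major + (E.b * sin t) • E.minor

/-- The eccentricity. -/
noncomputable def Ellipse.ecc (E : Ellipse) : ℝ := √(1 - E.b ^ 2 / E.a ^ 2)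

/-- The two foci of an ellipse (both are the centre when the ellipse is a circle). -/
def Ellipse.IsFocus (E : Ellipse) (F : E3) : Prop :=
  F = E.center + (E.a * E.ecc) • E.major ∨ F = E.center - (E.a * E.ecc) • E.major

/-- Two ellipses are confocal if they have a focus in common. -/
def Confocal (E₁ E₂ : Ellipse) : Prop := ∃ F : E3, E₁.IsFocus F ∧ E₂.IsFocus F

/-- The stationary points of the squared distance on `E₁ × E₂`: pairs of points
`(E₁.param s, E₂.param t)` at which both partial derivatives vanish. -/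
def stationaryPoints (E₁ E₂ : Ellipse) : Set (E3 × E3) :=
  {x | ∃ s t : ℝ, x = (E₁.param s, E₂.param t) ∧
    deriv (fun s' => ‖E₁.param s' - E₂.param t‖ ^ 2) s = 0 ∧
    deriv (fun t' => ‖E₁.param s - E₂.param t'‖ ^ 2) t = 0}

lemma hasDerivAt_param (E : Ellipse) (t : ℝ) :
    HasDerivAt E.param ((-(E.a * sin t)) • E.major + (E.b * cos t) • E.minor) t := by
  have h1 : HasDerivAt (fun t => (E.a * cos t) • E.major) ((E.a * -sin t) • E.major) t :=
    ((hasDerivAt_cos t).const_mul E.a).smul_const E.major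
  have h2 : HasDerivAt (fun t => (E.b * sin t) • E.minor) ((E.b * cos t) • E.minor) t :=
    ((hasDerivAt_sin t).const_mul E.b).smul_const E.minor
  have h3 := (h1.const_add E.center).add h2
  have e : E.a * -sin t = -(E.a * sin t) := by ring
  rw [e] at h3
  exact h3

lemma inner_zero_left {E : Ellipse} {q : E3} {s : ℝ}
    (h : deriv (fun s' => ‖E.param s' - q‖ ^ 2) s = 0) :
    inner ℝ (E.param s - q) ((-(E.a * sin s)) • E.major + (E.b * cos s) • E.minor) = (0 : ℝ) := by
  have h1 := ((hasDerivAt_param E s).sub_const q).norm_sq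
  rw [h1.deriv] at h
  linarith

lemma inner_zero_right {E : Ellipse} {p : E3} {t : ℝ}
    (h : deriv (fun t' => ‖p - E.param t'‖ ^ 2) t = 0) :
    inner ℝ (p - E.param t) ((-(E.a * sin t)) • E.major + (E.b * cos t) • E.minor) = (0 : ℝ) := by
  have h1 : (fun t' => ‖p - E.param t'‖ ^ 2) = fun t' => ‖E.param t' - p‖ ^ 2 := by
    funext t'; rw [norm_sub_rev]
  rw [h1] at h
  have h2 := inner_zero_left h
  rw [← neg_sub, inner_neg_left, h2, neg_zero]

lemma ecc_nonneg (E : Ellipse) : 0 ≤ E.ecc := Real.sqrt_nonneg _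

lemma circle_of_ecc {E : Ellipse} (h : E.ecc = 0) : E.b = E.a := by
  have ha : 0 < E.a := E.b_pos.trans_le E.b_le_a
  unfold Ellipse.ecc at h
  have h1 := Real.sqrt_eq_zero'.1 h
  have h2 : 1 ≤ E.b ^ 2 / E.a ^ 2 := by linarith
  rw [one_le_div (by positivity)] at h2
  have h3 : E.a ≤ E.b := by
    have := E.b_pos
    nlinarith
  exact le_antisymm E.b_le_a h3

lemma ecc_facts {E : Ellipse} (h : E.ecc ≠ 0) :
    0 < E.ecc ∧ E.ecc < 1 ∧ E.b ^ 2 = E.a ^ 2 * (1 - E.ecc ^ 2) := by
  have ha : 0 < E.a := E.b_pos.trans_le E.b_le_a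
  have hb := E.b_pos
  have h0 : 0 < E.ecc := lt_of_le_of_ne (ecc_nonneg E) (Ne.symm h)
  have h1 : 0 < 1 - E.b ^ 2 / E.a ^ 2 := Real.sqrt_pos.1 h0
  have h2 : E.ecc ^ 2 = 1 - E.b ^ 2 / E.a ^ 2 := Real.sq_sqrt h1.le
  have h3 : 0 < E.b ^ 2 / E.a ^ 2 := by positivity
  refine ⟨h0, by nlinarith, ?_⟩
  rw [h2]
  field_simp
  ring

/-- the case in which the first ellipse is the circle -/
lemma encard_circle_first (E₁ E₂ : Ellipse) (hc : Confocal E₁ E₂) (h₁ : E₁.ecc = 0)
    (h₂ : E₂.ecc ≠ 0) : (stationaryPoints E₁ E₂).encard ≤ 10 := by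
  obtain ⟨F, hF₁, hF₂⟩ := hc
  have hr : 0 < E₁.a := E₁.b_pos.trans_le E₁.b_le_a
  have ha : 0 < E₂.a := E₂.b_pos.trans_le E₂.b_le_a
  have hba := circle_of_ecc h₁
  obtain ⟨he0, he1, hab⟩ := ecc_facts h₂
  have hO : E₁.center = F := by
    unfold Ellipse.IsFocus at hF₁
    rw [h₁, mul_zero, zero_smul, add_zero, sub_zero] at hF₁
    rcases hF₁ with h | h <;> exact h.symm
  obtain ⟨τ, hτ, hcen⟩ : ∃ τ : ℝ, τ ^ 2 = 1 ∧
      E₂.center = F + (-(E₂.a * (τ * E₂.ecc))) • E₂.major := by
    rcases hF₂ with h | h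
    · refine ⟨1, by norm_num, ?_⟩
      rw [h]
      module
    · refine ⟨-1, by norm_num, ?_⟩
      rw [h]
      module
  obtain ⟨c, β, γ, R, ⟨hc0, hc1, hβ, hγ, hpos, hlt, hR⟩, G, hG⟩ :=
    Pool.Agent.H13R2.Kep.core F E₁.major E₁.minor E₂.major E₂.minor E₁.norm_major E₁.norm_minor
      E₁.orthogonal E₂.norm_major E₂.norm_minor E₂.orthogonal hr ha E₂.b_pos he0 he1 hab hτ
  have hp : ∀ s, E₁.param s = F + (E₁.a * cos s) • E₁.major + (E₁.a * sin s) • E₁.minor := by
    intro s
    unfold Ellipse.param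
    rw [hO, hba]
  have hq : ∀ t, E₂.param t
      = F + (E₂.a * (cos t - τ * E₂.ecc)) • E₂.major + (E₂.b * sin t) • E₂.minor := by
    intro t
    unfold Ellipse.param
    rw [hcen]
    module
  have hsub : stationaryPoints E₁ E₂ ⊆ G '' Pool.Agent.H13R2.Kep.Sol c β γ R := by
    rintro x ⟨s, t, rfl, hs, ht⟩
    have i1 := inner_zero_left hs
    have i2 := inner_zero_right ht
    rw [hp, hq, hba] at i1
    rw [hp, hq] at i2
    obtain ⟨w, hw, hwG⟩ := hG s t i1 i2
    refine ⟨w, hw, ?_⟩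
    rw [hp, hq]
    exact hwG.symm
  exact (Set.encard_le_encard hsub).trans ((Set.encard_image_le _ _).trans
    (Pool.Agent.H13R2.Kep.count_all hc0 hc1 hβ hγ hpos hlt hR))

lemma encard_swap (E₁ E₂ : Ellipse) :
    (stationaryPoints E₁ E₂).encard ≤ (stationaryPoints E₂ E₁).encard := by
  have hsub : stationaryPoints E₁ E₂ ⊆ Prod.swap '' stationaryPoints E₂ E₁ := by
    rintro x ⟨s, t, rfl, hs, ht⟩
    refine ⟨(E₂.param t, E₁.param s), ⟨t, s, rfl, ?_, ?_⟩, rfl⟩
    · have : (fun s' => ‖E₂.param s' - E₁.param s‖ ^ 2)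
          = fun t' => ‖E₁.param s - E₂.param t'‖ ^ 2 := by
        funext t'; rw [norm_sub_rev]
      rw [this]
      exact ht
    · have : (fun t' => ‖E₂.param t - E₁.param t'‖ ^ 2)
          = fun s' => ‖E₁.param s' - E₂.param t‖ ^ 2 := by
        funext t'; rw [norm_sub_rev]
      rw [this]
      exact hs
  exact (Set.encard_le_encard hsub).trans (Set.encard_image_le _ _)

/-- **Theorem (MP_4e5648_mp, Q2).** For every pair of confocal ellipses in space of which exactly
one is a circle, the squared distance has at most ten stationary points. -/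
theorem result (E₁ E₂ : Ellipse) (hc : Confocal E₁ E₂)
    (h : (E₁.ecc = 0 ∧ E₂.ecc ≠ 0) ∨ (E₁.ecc ≠ 0 ∧ E₂.ecc = 0)) :
    (stationaryPoints E₁ E₂).Finite ∧ (stationaryPoints E₁ E₂).ncard ≤ 10 := by
  have key : (stationaryPoints E₁ E₂).encard ≤ 10 := by
    rcases h with ⟨h1, h2⟩ | ⟨h1, h2⟩
    · exact encard_circle_first E₁ E₂ hc h1 h2
    · refine (encard_swap E₁ E₂).trans (encard_circle_first E₂ E₁ ?_ h2 h1)
      obtain ⟨F, hF1, hF2⟩ := hc
      exact ⟨F, hF2, hF1⟩
  have hfin : (stationaryPoints E₁ E₂).Finite := by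
    apply Set.finite_of_encard_le_coe (k := 10)
    exact key
  refine ⟨hfin, ?_⟩
  have h1 := hfin.cast_ncard_eq
  rw [← h1] at key
  exact_mod_cast key

end Pool.Agent.Results.MP_4e5648_mp.CircleEllipse
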